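import Pool.Agent.K3h53.UG.Stm6
import Pool.Agent.K3h93.UG.Dir6

/-! UG project (helper53, MP_209724_lc), brick DIR7: perturbation of nondegenerate directions, with
the direction itself moved by at most `δ` (adapted from the file of helper93). -/

set_option autoImplicit false

namespace Pool.Agent.K3h68.UG

open MvPolynomial Filter Topology Metric Pool.Agent.K3h53.UG Pool.Agent.K3h93.UG.Dir6

theorem t_DIR7 : S_DIR7 := by
  intro n s r e G τ lam θ hG Q hQ δ hδ
  -- the map
  set g : (Fin s → ℂ) × (Fin r → ℂ) → Fin r → ℂ :=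
    fun z i => eval (xr e τ z.1 z.2) (G i) with hg
  have hgc : ContDiff ℂ 1 g := contDiff_pi.2 fun i => contDiff_eval e τ (G i)
  set z₀ : (Fin s → ℂ) × (Fin r → ℂ) := (lam, θ) with hz₀
  set D : (Fin s → ℂ) × (Fin r → ℂ) →L[ℂ] (Fin r → ℂ) := fderiv ℂ g z₀ with hD
  have hgs : HasStrictFDerivAt g D z₀ := hgc.contDiffAt.hasStrictFDerivAt one_ne_zero
  set M : Matrix (Fin r) (Fin r) ℂ := Matrix.of fun i b : Fin r =>
    eval (xr e τ lam θ) (dd (xr e τ 0 (Pi.single b 1)) (G i)) with hM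
  have hM0 : M.det ≠ 0 := hG.det
  have hDv : ∀ v : Fin r → ℂ, D (0, v) = M.mulVec v := by
    intro v
    have h1 : HasDerivAt (fun t : ℂ => ((lam, θ + t • v) : (Fin s → ℂ) × (Fin r → ℂ)))
        ((0, v) : (Fin s → ℂ) × (Fin r → ℂ)) 0 := by
      refine (hasDerivAt_const (0 : ℂ) lam).prodMk ?_
      simpa using ((hasDerivAt_id (0 : ℂ)).smul_const v).const_add θ
    have h2 : HasFDerivAt g D ((lam, θ + (0 : ℂ) • v) : (Fin s → ℂ) × (Fin r → ℂ)) := by
      rw [zero_smul, add_zero]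
      exact hgs.hasFDerivAt
    have h3 := h2.comp_hasDerivAt (0 : ℂ) h1
    have h4 : HasDerivAt (g ∘ fun t : ℂ => ((lam, θ + t • v) : (Fin s → ℂ) × (Fin r → ℂ)))
        (M.mulVec v) 0 := by
      rw [hasDerivAt_pi]
      intro i
      have h5 := hasDeriv_path (fun t : ℂ => xr e τ lam (θ + t • v)) (xr e τ lam θ)
        (xr e τ 0 v) (by simp) (fun i => by
          have : (fun t : ℂ => xr e τ lam (θ + t • v) i) =
              fun t : ℂ => xr e τ lam θ i + t * xr e τ 0 v i :=
            funext fun t => xr_add e τ lam θ v t i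
          rw [this]
          simpa using ((hasDerivAt_id (0 : ℂ)).mul_const (xr e τ 0 v i)).const_add
            (xr e τ lam θ i)) (G i)
      rw [eval_dd_sum] at h5
      exact h5
    exact h3.unique h4
  have hΦ : HasStrictFDerivAt (fun z : (Fin s → ℂ) × (Fin r → ℂ) => (z.1, g z))
      ((ContinuousLinearMap.fst ℂ (Fin s → ℂ) (Fin r → ℂ)).prod D) z₀ :=
    hasStrictFDerivAt_fst.prodMk hgs
  have hsurj : ((ContinuousLinearMap.fst ℂ (Fin s → ℂ) (Fin r → ℂ)).prod D).range = ⊤ := by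
    rw [LinearMap.range_eq_top]
    rintro ⟨a, b⟩
    refine ⟨(a, M⁻¹.mulVec (b - D (a, 0))), ?_⟩
    have h1 : ((a, M⁻¹.mulVec (b - D (a, 0))) : (Fin s → ℂ) × (Fin r → ℂ)) =
        (a, 0) + (0, M⁻¹.mulVec (b - D (a, 0))) := by
      ext <;> simp
    have h2 : D (a, M⁻¹.mulVec (b - D (a, 0))) = b := by
      rw [h1, map_add, hDv, Matrix.mulVec_mulVec, Matrix.mul_nonsing_inv M
        (isUnit_iff_ne_zero.2 hM0), Matrix.one_mulVec]
      abel
    exact Prod.ext rfl h2
  have hmap := hΦ.map_nhds_eq_of_surj hsurj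
  -- the neighbourhood
  have hcD : Continuous fun z : (Fin s → ℂ) × (Fin r → ℂ) => (Matrix.of fun i b : Fin r =>
      eval (xr e τ z.1 z.2) (dd (xr e τ 0 (Pi.single b 1)) (G i))).det := by
    refine Continuous.matrix_det ?_
    refine continuous_matrix fun i b => ?_
    exact (contDiff_eval e τ (dd (xr e τ 0 (Pi.single b 1)) (G i))).continuous
  have hNb : {z : (Fin s → ℂ) × (Fin r → ℂ) | ‖z.1 - lam‖ < δ ∧ ‖z.2 - θ‖ < δ ∧
      (Matrix.of fun i b : Fin r =>
      eval (xr e τ z.1 z.2) (dd (xr e τ 0 (Pi.single b 1)) (G i))).det ≠ 0} ∈ 𝓝 z₀ := by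
    refine IsOpen.mem_nhds ?_ ⟨by simpa [hz₀] using hδ, by simpa [hz₀] using hδ, hM0⟩
    exact (isOpen_lt (continuous_fst.sub continuous_const).norm continuous_const).inter
      ((isOpen_lt (continuous_snd.sub continuous_const).norm continuous_const).inter
      (isOpen_ne_fun hcD continuous_const))
  have hIm := image_mem_map (m := fun z : (Fin s → ℂ) × (Fin r → ℂ) => (z.1, g z)) hNb
  rw [hmap] at hIm
  obtain ⟨ρ, hρ, hball⟩ := Metric.mem_nhds_iff.1 hIm
  obtain ⟨b, hb, hQb⟩ := exists_imag_near hQ (fun j => (lam j).im) hρ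
  have hmem : (((fun j => ((b j : ℝ) : ℂ) * Complex.I), 0) : (Fin s → ℂ) × (Fin r → ℂ)) ∈
      ball (z₀.1, g z₀) ρ := by
    rw [mem_ball, Prod.dist_eq, max_lt_iff]
    refine ⟨?_, ?_⟩
    · rw [dist_pi_lt_iff hρ]
      intro j
      rw [dist_eq_norm]
      have : ((b j : ℝ) : ℂ) * Complex.I - z₀.1 j = ((b j - (lam j).im : ℝ) : ℂ) * Complex.I := by
        have h1 : lam j = ((lam j).im : ℂ) * Complex.I := by
          apply Complex.ext
          · simp [hG.im j]
          · simp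
        rw [hz₀]
        simp only
        rw [h1]
        simp only [Complex.mul_im, Complex.ofReal_re, Complex.I_im, mul_one, Complex.ofReal_im,
          Complex.I_re, mul_zero, add_zero]
        push_cast
        ring
      show ‖((b j : ℝ) : ℂ) * Complex.I - z₀.1 j‖ < ρ
      rw [this, norm_mul, Complex.norm_real, Real.norm_eq_abs, Complex.norm_I, mul_one]
      exact hb j
    · have : g z₀ = 0 := funext fun i => hG.zero i
      rw [this, dist_self]
      exact hρ
  obtain ⟨⟨l, η⟩, ⟨hlam, hη, hdet⟩, hl⟩ := hball hmem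
  simp only [Prod.mk.injEq] at hl
  obtain ⟨rfl, hg0⟩ := hl
  simp only at hlam hη hdet
  refine ⟨fun j => ((b j : ℝ) : ℂ) * Complex.I, η, ⟨fun j => ?_, fun i => congrFun hg0 i, hdet⟩,
    fun c => ?_, fun c => ?_, hQb⟩
  · simp
  · exact (norm_le_pi_norm ((fun j => ((b j : ℝ) : ℂ) * Complex.I) - lam) c).trans hlam.le
  · exact (norm_le_pi_norm (η - θ) c).trans hη.le

end Pool.Agent.K3h68.UG
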